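import Mathlib
import Pool.Agent.T2H01.EK.Fish
import Pool.Agent.T2H01.EK.Ball
import Pool.Agent.T2H01.EK2.MF
import Pool.Agent.T2H01.EK2.Gib
import Pool.Agent.T2H01.EK2.Fre

/-!
# Lattice Yang-Mills theory at large `N`: volume independence and its breakdown

Wilson's lattice gauge theory on the torus `(ℤ/l)^d` and on `ℤ^d`, with a closed gauge group `G`
between `SU(N)` and `U(N)` at the inverse coupling `β = N b`. Eguchi and Kawai conjectured in 1982
that at `N = ∞` the Wilson loops and the free energy do not depend on the volume, so that the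
theory on `ℤ^d` reduces to a model of `d` matrices (`l = 1`).

* At strong coupling, `b ≤ 1 / (20000 d)`, this is proved, in every dimension: the large `N` limit
  exists; the limits of the Wilson loops (the master field) and of the free energy are the same on
  every torus, in every infinite volume limit and for every gauge group; products of loops
  factorise, the loops which wind around the torus vanish (the symmetry of the centre is unbroken),
  all with errors `O(1 / N ^ 2)`.
* At weak coupling and `d ≥ 3` it fails, on every torus. The free energy per site is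
  `- ((d - 1) / 2 - (d - 2) / (4 l ^ d)) log b + O(1 + log b / N)`, so that it depends on `l`; the
  upper bound is uniform in `l`, so that every torus differs also from the infinite volume. The
  symmetry of the centre is completely broken: with probability at least `1 - exp (- N ^ 2)` the
  loops which wind around the torus are as close to scalar matrices as one wants.
* Hence there are phase transitions at `N = ∞`: the zeros of the partition functions in the complex
  coupling plane come arbitrarily close to the positive real axis as `N → ∞`. This holds for the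
  pairs of tori of different sides, and for the torus of any given side (for example for the model
  of Eguchi and Kawai) and its deformation by the square of the order parameter.
-/

open MeasureTheory Matrix Filter
open scoped Matrix.Norms.Frobenius Topology

namespace Pool.Agent.Results.MP_7f377f_mp.EguchiKawai

set_option linter.unusedSectionVars false
set_option linter.unusedVariables false

noncomputable section

/-- Complex `N × N` matrices. -/
abbrev Mt (N : ℕ) := Matrix (Fin N) (Fin N) ℂ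

/-- The unitary group `U(N)`. -/
abbrev UU (N : ℕ) := Matrix.unitaryGroup (Fin N) ℂ

/-- The matrix of an element of a subgroup of `U(N)`. -/
def mt {N : ℕ} {G : Subgroup (UU N)} (g : G) : Mt N := ((g : UU N) : Mt N)

/-- `G` contains `SU(N)`. -/
def ContainsSU {N : ℕ} (G : Subgroup (UU N)) : Prop := ∀ U : UU N, (U : Mt N).det = 1 → U ∈ G

/-- Links of the periodic lattice `(ℤ/l)^d`: base point and direction. -/
abbrev Link (d l : ℕ) := (Fin d → ZMod l) × Fin d

/-- Links of the lattice `ℤ^d`: base point and direction. -/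
abbrev LinkZ (d : ℕ) := (Fin d → ℤ) × Fin d

/-- Paths on `ℤ^d`: the starting point and the list of the steps; a step is a direction and an
orientation (`true` is forward). -/
abbrev Path (d : ℕ) := (Fin d → ℤ) × List (Fin d × Bool)

/-- The end point of a step from `x`. -/
def next {d : ℕ} (x : Fin d → ℤ) (s : Fin d × Bool) : Fin d → ℤ :=
  if s.2 then x + Pi.single s.1 1 else x - Pi.single s.1 1

/-- The end point of a path from `x`. -/
def target {d : ℕ} : (Fin d → ℤ) → List (Fin d × Bool) → (Fin d → ℤ)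
  | x, [] => x
  | x, s :: w => target (next x s) w

/-- The path is closed modulo `l`; for `l = 0` this means that it is closed on `ℤ^d`. -/
def ClosedMod {d : ℕ} (l : ℕ) (a : Path d) : Prop :=
  ∀ i, ((target a.1 a.2 i : ℤ) : ZMod l) = ((a.1 i : ℤ) : ZMod l)

/-- The total number of steps of a list of paths. -/
def steps {d : ℕ} (s : List (Path d)) : ℕ := (s.map fun a => a.2.length).sum

/-- The error terms: `5000 (n + 1) 8 ^ n / N ^ 2`. -/
def err (n N : ℕ) : ℝ := 5000 * ((n + 1) * 8 ^ n) / (N : ℝ) ^ 2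

section

variable {N n d l : ℕ} {G : Subgroup (UU N)}

/-- The product of the link variables along a path. -/
def hol (V : LinkZ d → G) : (Fin d → ℤ) → List (Fin d × Bool) → G
  | _, [] => 1
  | x, s :: w =>
    (if s.2 then V (x, s.1) else (V (x - Pi.single s.1 1, s.1))⁻¹) * hol V (next x s) w

/-- The normalised trace of a loop. -/
def loop (V : LinkZ d → G) (a : Path d) : ℂ := trace (mt (hol V a.1 a.2)) / N

/-- The product of the normalised traces of several loops. -/
def loops (V : LinkZ d → G) (s : List (Path d)) : ℂ := (s.map (loop V)).prod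

/-- The product of the link variables around the plaquette at `x` in the directions `i`, `j`. -/
def plaq (U : Link d l → G) (x : Fin d → ZMod l) (i j : Fin d) : G :=
  U (x, i) * U (x + Pi.single i 1, j) * (U (x + Pi.single j 1, i))⁻¹ * (U (x, j))⁻¹

/-- The Wilson action `∑_p Re tr (1 - U_p)`, the sum over the plaquettes. -/
def action [NeZero l] (U : Link d l → G) : ℝ :=
  ∑ x : Fin d → ZMod l, ∑ i : Fin d, ∑ j : Fin d,
    if i < j then (trace (1 - mt (plaq U x i j))).re else 0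

/-- The periodic extension of a configuration. -/
def per (U : Link d l → G) : LinkZ d → G := fun e => U (fun i => (e.1 i : ZMod l), e.2)

/-- Lattice Yang-Mills theory on `(ℤ/l)^d`: the Gibbs measure, `μ` being the Haar measure. The
theory on the torus of side `l = 1` is the reduced model of Eguchi and Kawai. -/
def gibbs (d l : ℕ) [NeZero l] [MeasurableSpace G] (μ : Measure G) (β : ℝ) :
    Measure (Link d l → G) := (Measure.pi fun _ => μ).tilted fun U => -(β * action U)

/-- The free energy per site and per degree of freedom at the coupling `b = β / N`. -/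
def free (d l : ℕ) [NeZero l] [MeasurableSpace G] (μ : Measure G) (b : ℝ) : ℝ :=
  Real.log (∫ U : Link d l → G, Real.exp (-(N * b * action U)) ∂(Measure.pi fun _ => μ)) /
    ((N : ℝ) ^ 2 * (l : ℝ) ^ d)

/-- `ν` is an infinite volume limit (weak limit along a subsequence) of the theories on the tori of
even side at inverse coupling `β`. -/
structure IsInfVol [MeasurableSpace G] (μ : Measure G) (β : ℝ)
    (ν : Measure (LinkZ d → G)) : Prop where
  prob : IsProbabilityMeasure ν
  lim : ∃ s : ℕ → ℕ, Tendsto s atTop atTop ∧ ∀ F : (LinkZ d → G) → ℝ, Continuous F →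
    Tendsto (fun j => ∫ U, F (per U) ∂gibbs d (2 * (s j + 1)) μ β) atTop (𝓝 (∫ V, F V ∂ν))

/-- The line around the torus of side `l` from the origin in the direction `i`. -/
def winding (l : ℕ) (V : LinkZ d → G) (i : Fin d) : G := hol V 0 (List.replicate l (i, true))

/-- The order parameter `|tr P_i / N| ^ 2` of the symmetry of the centre. -/
def order (l : ℕ) (V : LinkZ d → G) (i : Fin d) : ℝ := ‖trace (mt (winding l V i)) / N‖ ^ 2

/-- The partition function at the complex coupling `z = β / N`, with the deformation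
`h ∑_i |tr P_i| ^ 2` of the action. -/
def part (d l : ℕ) [NeZero l] [MeasurableSpace G] (μ : Measure G) (h : ℝ) (z : ℂ) : ℂ :=
  ∫ U : Link d l → G, Complex.exp (-(N * z * action U +
    ((h * (N : ℝ) ^ 2 * ∑ i : Fin d, order l (per U) i : ℝ) : ℂ))) ∂(Measure.pi fun _ => μ)

end

/-- The property `P` holds for all closed gauge groups between `SU(N)` and `U(N)` with the Haar
measure, for `N ≥ N₀`. -/
def FromN (N₀ : ℕ) (P : ∀ (N : ℕ) (G : Subgroup (UU N)) [MeasurableSpace G], Measure G → Prop) :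
    Prop :=
  ∀ N, N₀ ≤ N → ∀ (G : Subgroup (UU N)) [MeasurableSpace G] [BorelSpace G]
    (μ : Measure G) [IsProbabilityMeasure μ] [μ.IsHaarMeasure],
    IsClosed (G : Set (UU N)) → ContainsSU G → P N G μ

/-- **The large `N` limit at strong coupling**: the master field `w` and the free energy `F`. -/
def Reduction (d : ℕ) (w : ℝ → Path d → ℂ) (F : ℝ → ℝ) : Prop :=
  FromN 1 fun N G _ μ => ∀ b : ℝ, 0 ≤ b → b ≤ 1 / (20000 * (d : ℝ)) →
    (∃ ν : Measure (LinkZ d → G), IsInfVol μ (N * b) ν) ∧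
    (∀ ν : Measure (LinkZ d → G), IsInfVol μ (N * b) ν → ∀ s : List (Path d),
      (∀ a ∈ s, ClosedMod 0 a) → ‖∫ V, loops V s ∂ν - (s.map (w b)).prod‖ ≤ err (steps s) N) ∧
    (∀ (l : ℕ) [NeZero l] (s : List (Path d)), (∀ a ∈ s, ClosedMod l a) →
      ‖∫ U, loops (per U) s ∂gibbs d l μ (N * b) - (s.map (w b)).prod‖ ≤ err (steps s) N) ∧
    (∀ a : Path d, ¬ClosedMod 0 a → w b a = 0) ∧
    (∀ (l : ℕ) [NeZero l] (i : Fin d),
      ∫ U, order l (per U) i ∂gibbs d l μ (N * b) ≤ err (2 * l) N) ∧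
    ∀ (l : ℕ) [NeZero l], |free d l μ b - F b| ≤ 10 ^ 6 * (d : ℝ) ^ 2 * b / (N : ℝ) ^ 2

/-- **Breaking of the symmetry of the centre** at weak coupling. -/
def Broken (d : ℕ) : Prop :=
  ∀ (l : ℕ) [NeZero l] (a : ℝ), a < 1 → ∃ (b₁ : ℝ) (N₀ : ℕ), FromN N₀ fun N G _ μ =>
    ∀ b : ℝ, b₁ ≤ b → ∀ i : Fin d, gibbs d l μ (N * b) {U | order l (per U) i ≤ a} ≤
      ENNReal.ofReal (Real.exp (-(N : ℝ) ^ 2))

/-- **The free energy** at weak coupling: it depends on the volume. The constant `A` of the upper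
bound does not depend on `l`. -/
def FreeEnergy (d : ℕ) : Prop :=
  ∃ (A : ℝ) (C : ℕ → ℝ), FromN 1 fun N G _ μ => ∀ (l : ℕ) [NeZero l] (b : ℝ), 1 ≤ b →
    -C l ≤ free d l μ b + (((d : ℝ) - 1) / 2 - (d - 2) / (4 * (l : ℝ) ^ d)) * Real.log b ∧
    free d l μ b + (((d : ℝ) - 1) / 2 - (d - 2) / (4 * (l : ℝ) ^ d)) * Real.log b ≤
      A * (1 + Real.log b / N)

/-- One of two functions has a zero at distance less than `r` from the segment `[b₀, b₁]`. -/
def NearZero (b₀ b₁ r : ℝ) (f g : ℂ → ℂ) : Prop :=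
  ∃ (b : ℝ) (z : ℂ), b₀ ≤ b ∧ b ≤ b₁ ∧ ‖z - (b : ℂ)‖ < r ∧ (f z = 0 ∨ g z = 0)

/-- **Phase transitions**: zeros of the partition functions near the real axis, for the tori of
sides `l < l'`, and for the torus of side `l` and its deformations. -/
def Transitions (d : ℕ) : Prop :=
  ∀ (l : ℕ) [NeZero l], ∃ b₁ : ℝ, ∀ r : ℝ, 0 < r →
    (∀ (l' : ℕ) [NeZero l'], l < l' → ∃ N₀, FromN N₀ fun N G _ μ =>
      NearZero (1 / (20000 * (d : ℝ))) b₁ r (part d l μ 0) (part d l' μ 0)) ∧
    ∀ h : ℝ, 0 < h → ∃ N₀, FromN N₀ fun N G _ μ =>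
      NearZero (1 / (20000 * (d : ℝ))) b₁ r (part d l μ 0) (part d l μ h)

open Pool.Agent.H906R3 Pool.Agent.W793 Pool.Agent.TH618 Pool.Agent.T2H01 Pool.Agent

variable {N n d l : ℕ} {G : Subgroup (UU N)}

/-- A Haar probability measure is invariant under right multiplications. -/
lemma right_inv {H : Type*} [Group H] [TopologicalSpace H] [IsTopologicalGroup H]
    [CompactSpace H] [MeasurableSpace H] [BorelSpace H] (μ : Measure H)
    [IsProbabilityMeasure μ] [μ.IsHaarMeasure] : μ.IsMulRightInvariant := by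
  refine ⟨fun g => ?_⟩
  have h1 : IsProbabilityMeasure (Measure.map (fun x => x * g) μ) :=
    Measure.isProbabilityMeasure_map (measurable_mul_const g).aemeasurable
  exact Measure.isHaarMeasure_eq_of_isProbabilityMeasure _ _

/-- A Haar probability measure is invariant under the inversion. -/
lemma inv_inv' {H : Type*} [Group H] [TopologicalSpace H] [IsTopologicalGroup H]
    [CompactSpace H] [MeasurableSpace H] [BorelSpace H] (μ : Measure H)
    [IsProbabilityMeasure μ] [μ.IsHaarMeasure] : μ.IsInvInvariant := by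
  have hr := right_inv μ
  refine ⟨?_⟩
  have h1 : IsProbabilityMeasure μ.inv :=
    Measure.isProbabilityMeasure_map measurable_inv.aemeasurable
  have h2 : μ.inv.IsMulLeftInvariant := inferInstance
  have h3 : μ.inv.IsHaarMeasure :=
    Measure.isHaarMeasure_of_isCompact_nonempty_interior μ.inv Set.univ isCompact_univ
      (by simp) (by simp) (by simp)
  exact Measure.isHaarMeasure_eq_of_isProbabilityMeasure _ _

/-- compactness and a frame -/
lemma setup (hG : IsClosed (G : Set (UU N))) : CompactSpace G ∧ SecondCountableTopology G ∧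
    ∃ n, Nonempty (YM.Frame G n) := by
  have h0 : CompactSpace G := by
    have h1 : IsCompact (G : Set (UU N)) := hG.isCompact
    exact isCompact_iff_compactSpace.1 h1
  have h00 : SecondCountableTopology (UU N) := TopologicalSpace.Subtype.secondCountableTopology _
  exact ⟨h0, TopologicalSpace.Subtype.secondCountableTopology _, YM.exists_frame hG⟩

section bridge

lemma target_eq (x : Fin d → ℤ) (w : List (Fin d × Bool)) : target x w = EK.en x w := by
  induction w generalizing x with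
  | nil => rfl
  | cons s w ih => exact ih (next x s)

lemma closed_eq (l : ℕ) (a : Path d) : ClosedMod l a ↔ EK.Cl l a := by
  unfold ClosedMod EK.Cl
  rw [target_eq]

lemma hol_eq (V : LinkZ d → G) (x : Fin d → ℤ) (w : List (Fin d × Bool)) :
    hol V x w = EK.hol V x w := by
  induction w generalizing x with
  | nil => rfl
  | cons s w ih =>
    show _ * hol V (next x s) w = _ * EK.hol V (EK.nx x s) w
    rw [ih]
    rfl

variable [CompactSpace G] [SecondCountableTopology G] [MeasurableSpace G] [BorelSpace G]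
  (μ : Measure G) [IsProbabilityMeasure μ] [μ.IsHaarMeasure] (B : YM.Frame G n)

lemma loop_eq (V : LinkZ d → G) (a : Path d) : loop V a = EK.wr B.toLD V a := by
  unfold loop EK.wr
  rw [hol_eq]
  rfl

lemma loops_eq (V : LinkZ d → G) (s : List (Path d)) : loops V s = EK.ws B.toLD V s := by
  unfold loops EK.ws
  congr 1
  exact List.map_congr_left fun a _ => loop_eq B V a

lemma steps_eq (s : List (Path d)) : steps s = EK.len s := rfl

lemma gibbs_intC [NeZero l] (β : ℝ) (F : (Link d l → G) → ℂ) :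
    ∫ U, F U ∂gibbs d l μ β = EK.ez μ B.toLD β F := by
  unfold gibbs EK.ez EK.Jz YM.Zt
  rw [integral_tilted]
  have h1 : ((∫ U : Link d l → G, 1 * Real.exp (-(β * YM.act B.toLD U)) ∂YM.ME μ (YM.Ed d l) :
      ℝ) : ℂ) = ((∫ U : Link d l → G, Real.exp (-(β * action U)) ∂(Measure.pi fun _ => μ) :
        ℝ) : ℂ) := by
    simp only [one_mul]
    rfl
  rw [h1, ← integral_div]
  refine integral_congr_ae (Eventually.of_forall fun U => ?_)
  simp only
  rw [Complex.real_smul]
  push_cast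
  have h2 : YM.act B.toLD U = action U := rfl
  rw [h2]
  ring

lemma gibbs_int [NeZero l] (β : ℝ) (F : (Link d l → G) → ℝ) :
    ∫ U, F U ∂gibbs d l μ β = YM.EX μ B.toLD β F := by
  unfold gibbs YM.EX YM.Zt
  rw [integral_tilted, ← integral_div]
  refine integral_congr_ae (Eventually.of_forall fun U => ?_)
  simp only [one_mul, smul_eq_mul]
  have h2 : YM.act B.toLD U = action U := rfl
  rw [h2, div_mul_eq_mul_div, mul_comm]
  rfl

include B in
lemma action_cont [NeZero l] : Continuous (action : (Link d l → G) → ℝ) :=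
  YM.act_cont (L := B.toLD)

include B in
lemma gibbs_prob [NeZero l] (β : ℝ) : IsProbabilityMeasure (gibbs d l μ β) := by
  unfold gibbs
  have hexp : Continuous fun U : Link d l → G => Real.exp (-(β * action U)) :=
    Real.continuous_exp.comp (continuous_const.mul (action_cont B)).neg
  exact isProbabilityMeasure_tilted
    (hexp.integrable_of_hasCompactSupport (HasCompactSupport.of_compactSpace _))

lemma iv_of {β : ℝ} {ν : Measure (LinkZ d → G)} (hν : IsInfVol μ β ν) :
    YM.IV μ B.toLD β ν := by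
  refine ⟨hν.prob, ?_⟩
  obtain ⟨s, hs, hlim⟩ := hν.lim
  refine ⟨s, hs, fun F hF => (hlim F hF).congr fun j => ?_⟩
  exact gibbs_int μ B β fun U => F (per U)

include B in
/-- existence of infinite volume limits -/
lemma exists_infVol (β : ℝ) : ∃ ν : Measure (LinkZ d → G), IsInfVol μ β ν := by
  have hP : ∀ j : ℕ, ∃ P : ProbabilityMeasure (LinkZ d → G),
      ∀ F : (LinkZ d → G) → ℝ, Continuous F →
        ∫ V, F V ∂(P : Measure (LinkZ d → G)) = ∫ U, F (per U) ∂gibbs d (2 * (j + 1)) μ β := by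
    intro j
    have hper : Continuous (per : (Link d (2 * (j + 1)) → G) → LinkZ d → G) :=
      continuous_pi fun e => continuous_apply _
    have h1 := gibbs_prob (d := d) (l := 2 * (j + 1)) μ B β
    refine ⟨⟨(gibbs d (2 * (j + 1)) μ β).map per,
      Measure.isProbabilityMeasure_map hper.aemeasurable⟩, fun F hF => ?_⟩
    show ∫ V, F V ∂((gibbs d (2 * (j + 1)) μ β).map per) = _
    rw [integral_map hper.aemeasurable hF.aestronglyMeasurable]
  choose P hP using hP
  obtain ⟨ν, s, hs, hlim⟩ := CompactSpace.tendsto_subseq P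
  refine ⟨ν, ⟨inferInstance, s, hs.tendsto_atTop, fun F hF => ?_⟩⟩
  have h1 := (ProbabilityMeasure.tendsto_iff_forall_integral_tendsto.1 hlim)
    (BoundedContinuousFunction.mkOfCompact ⟨F, hF⟩)
  simp only [Function.comp_apply, BoundedContinuousFunction.mkOfCompact_apply,
    ContinuousMap.coe_mk] at h1
  simpa only [hP _ F hF] using h1

lemma winding_eq [NeZero l] (U : Link d l → G) (i : Fin d) :
    winding l (per U) i = EK.pol U i := by
  unfold winding
  rw [hol_eq, EK.hol_line]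
  have h1 := LN.lnZ_pe (G := G) U i l 0
  have h0 : (YM.cs l (0 : Fin d → ℤ) : Fin d → ZMod l) = 0 := by
    funext k; simp [Pool.Agent.T2H01.YM.cs]
  rw [h0] at h1
  exact h1

lemma order_eq [NeZero l] (U : Link d l → G) (i : Fin d) :
    order l (per U) i = ‖trace (B.toLD.rho (EK.pol U i)) / N‖ ^ 2 := by
  unfold order
  rw [winding_eq]
  rfl

lemma free_eq [NeZero l] (b : ℝ) : free d l μ b = EK.fe2 μ B.toLD d l b := by
  unfold free EK.fe2 YM.Zt
  simp only [one_mul]
  rfl

/-- the balls -/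
lemma ball_of {C : ℝ} (hball : ∀ ρ : ℝ, 0 < ρ → ρ ≤ 1 →
    (ρ / C) ^ (N ^ 2) ≤ μ.real {g : G | LN.opn (1 - YM.mt g) ≤ ρ}) :
    ∀ ρ : ℝ, 0 < ρ → ρ ≤ 1 → (ρ / C) ^ (N ^ 2) ≤ μ.real {g | LN.D1 B.toLD g ≤ ρ} := hball

end bridge

section main

lemma hb_of {d : ℕ} {b : ℝ} (h : b ≤ 1 / (20000 * (d : ℝ))) : b * (20000 * d) ≤ 1 := by
  rcases Nat.eq_zero_or_pos d with h0 | h0
  · rw [h0]; simp
  · have : (0 : ℝ) < d := by exact_mod_cast h0
    rwa [le_div_iff₀ (by positivity)] at h

lemma err_mono {x : ℝ} (hx : x ≤ 5000) (n N : ℕ) :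
    x * ((n + 1) * 8 ^ n) / (N : ℝ) ^ 2 ≤ err n N := by
  unfold err
  refine div_le_div_of_nonneg_right ?_ (by positivity)
  exact mul_le_mul_of_nonneg_right hx (by positivity)

variable [MeasurableSpace G] [BorelSpace G] (μ : Measure G) [IsProbabilityMeasure μ]
  [μ.IsHaarMeasure]

omit [MeasurableSpace G] [BorelSpace G] in
lemma apx_mono {b δ δ' : ℝ} (h : δ ≤ δ') {φ : List (Path d) → ℂ} {l : ℕ} (hφ : EK.Apx l b δ φ) :
    EK.Apx l b δ' φ :=
  ⟨hφ.one, hφ.bdd, hφ.emp, fun x k A r h1 h2 => (hφ.equ x k A r h1 h2).trans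
    (mul_le_mul_of_nonneg_right h (Nat.cast_nonneg _)), hφ.neg, hφ.cnj⟩

theorem reduction (d : ℕ) : ∃ (w : ℝ → Path d → ℂ) (F : ℝ → ℝ), Reduction d w F := by
  obtain ⟨w, F, hw, hF⟩ := EK.master d
  refine ⟨fun b a => w b [a], F, fun N hN G _ _ μ _ _ hG hSU b hb0 hb1 => ?_⟩
  obtain ⟨h1, h2, n, ⟨B⟩⟩ := setup hG
  have := right_inv μ
  have := inv_inv' μ
  have hg : EK.HG B.toLD := EK.hg_of B hSU
  have hb := hb_of hb1
  have hδ : (0 : ℝ) ≤ 2 / (N : ℝ) ^ 2 := by positivity
  obtain ⟨hw1, hw2⟩ := hw b hb0 hb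
  have hA1 := apx_mono hδ hw1
  refine ⟨exists_infVol μ B _, fun ν hν s hs => ?_, fun l _ s hs => ?_, fun a ha => ?_,
    fun l _ i => ?_, fun l _ => ?_⟩
  · have h3 := EK.reduction hb0 hb hδ hA1 (EK.phv_apx μ hN hg (iv_of μ B hν)) (s := s)
      (fun a ha => (closed_eq 0 a).1 (hs a ha))
    have e2 : ∫ V, loops V s ∂ν = EK.phv B.toLD ν s := by
      unfold EK.phv
      simp only [loops_eq B]
    rw [e2]
    refine h3.trans (le_trans (le_of_eq ?_) (err_mono (x := 3000) (by norm_num) _ _))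
    rw [steps_eq]
    ring
  · have h3 := EK.reduction hb0 hb hδ hA1
      (EK.ph_apx μ (L := B.toLD) (d := d) (l := l) hN hg b) (s := s)
      (fun a ha => (closed_eq l a).1 (hs a ha))
    have e2 : ∫ U, loops (per U) s ∂gibbs d l μ (N * b) = EK.ph μ B.toLD l b s := by
      rw [gibbs_intC μ B]
      unfold EK.ph
      congr 1
      funext U
      rw [loops_eq B]
      rfl
    rw [e2]
    refine h3.trans (le_trans (le_of_eq ?_) (err_mono (x := 3000) (by norm_num) _ _))
    rw [steps_eq]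
    ring
  · exact hw2 a fun h => ha ((closed_eq 0 a).2 h)
  · rw [gibbs_int μ B]
    have h3 := EK.wind_small μ (L := B.toLD) (l := l) hN hg hb0 hb i
    have e2 : (fun U : Link d l → G => order l (per U) i) =
        fun U : YM.Ed d l → G => ‖trace (B.toLD.rho (EK.pol U i)) / N‖ ^ 2 := by
      funext U
      exact order_eq B U i
    rw [e2]
    refine h3.trans (le_trans (le_of_eq ?_) (err_mono (x := 3000) (by norm_num) _ _))
    push_cast
    rfl
  · rw [free_eq μ B]
    exact hF N n G μ B.toLD hN hg b hb0 hb l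

/-- the hypotheses on the group -/
lemma rho_eq {n : ℕ} (B : YM.Frame G n) (g : G) : B.toLD.rho g = ((g : UU N) : Mt N) := rfl

theorem broken {d : ℕ} (hd : 3 ≤ d) : Broken d := by
  intro l _ a ha
  obtain ⟨C, hC, hball⟩ := EK.ball
  obtain ⟨b₁, N₁, hN₁, hmain⟩ := EK2.weak_break d l hd ha hC
  refine ⟨b₁, N₁, fun N hN G _ _ μ _ _ hG hSU b hb i => ?_⟩
  obtain ⟨h1, h2, n, ⟨B⟩⟩ := setup hG
  have := right_inv μ
  have := inv_inv' μ
  have hg : EK.HG B.toLD := EK.hg_of B hSU
  obtain ⟨W, hWc, hW0, hW1, hW⟩ := hmain N n G μ B.toLD hN (rho_eq B) hg hSU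
    (ball_of μ B (hball N G μ hG)) b hb i
  have hpr := gibbs_prob (d := d) (l := l) μ B (N * b)
  have hS : {U : Link d l → G | order l (per U) i ≤ a} =
      {U : YM.Ed d l → G | ‖trace (B.toLD.rho (EK.pol U i)) / N‖ ^ 2 ≤ a} := by
    ext U
    show order l (per U) i ≤ a ↔ _
    rw [order_eq B]
    rfl
  rw [hS]
  have hoc : Continuous fun U : YM.Ed d l → G => ‖trace (B.toLD.rho (EK.pol U i)) / N‖ ^ 2 :=
    (((Continuous.matrix_trace (B.toLD.cont.comp (EK.pol_cont i))).div_const _).norm).pow 2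
  have hm : MeasurableSet {U : YM.Ed d l → G | ‖trace (B.toLD.rho (EK.pol U i)) / N‖ ^ 2 ≤ a} :=
    (isClosed_le hoc continuous_const).measurableSet
  have hWi : Integrable W (gibbs d l μ (N * b)) :=
    hWc.integrable_of_hasCompactSupport (HasCompactSupport.of_compactSpace _)
  have h3 : (gibbs d l μ (N * b)).real
      {U : YM.Ed d l → G | ‖trace (B.toLD.rho (EK.pol U i)) / N‖ ^ 2 ≤ a} ≤
      ∫ U, W U ∂gibbs d l μ (N * b) := by
    rw [← integral_indicator_one hm]
    refine integral_mono ((integrable_const _).indicator hm) hWi fun U => ?_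
    by_cases hU : ‖trace (B.toLD.rho (EK.pol U i)) / N‖ ^ 2 ≤ a
    · rw [Set.indicator_of_mem (show U ∈ {U : YM.Ed d l → G |
        ‖trace (B.toLD.rho (EK.pol U i)) / N‖ ^ 2 ≤ a} from hU)]
      exact hW1 U hU
    · rw [Set.indicator_of_notMem (show U ∉ {U : YM.Ed d l → G |
        ‖trace (B.toLD.rho (EK.pol U i)) / N‖ ^ 2 ≤ a} from hU)]
      exact hW0 U
  rw [gibbs_int μ B] at h3
  rw [← ofReal_measureReal]
  exact ENNReal.ofReal_le_ofReal (h3.trans hW)

/-- the coefficient of the logarithm in the free energy -/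
def cf (d l : ℕ) : ℝ := ((d : ℝ) - 1) / 2 - (d - 2) / (4 * (l : ℝ) ^ d)

/-- the bounds of the free energy -/
theorem free_bounds {d : ℕ} (hd : 3 ≤ d) : ∃ (A : ℝ) (C : ℕ → ℝ), 0 ≤ A ∧ (∀ l, 0 ≤ C l) ∧
    FromN 1 fun N G _ μ => ∀ b : ℝ, 1 ≤ b → ∀ (l : ℕ) [NeZero l],
      free d l μ b ≤ -(cf d l * Real.log b) + A * (1 + Real.log b / N) ∧
        -(cf d l * Real.log b) - C l ≤ free d l μ b := by
  obtain ⟨C₁, hC₁, hball⟩ := EK.ball
  obtain ⟨A, hA, hmain⟩ := EK2.free_two d hd
  refine ⟨A, fun l => EK.c2 C₁ d l, hA, fun l => EK.c2_nonneg hC₁ d l,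
    fun N hN G _ _ μ _ _ hG hSU b hb l _ => ?_⟩
  obtain ⟨h1, h2, n, ⟨B⟩⟩ := setup hG
  have := right_inv μ
  have := inv_inv' μ
  have hg : EK.HG B.toLD := EK.hg_of B hSU
  rw [free_eq μ B]
  exact hmain l C₁ N n G μ B.toLD hC₁ hN (rho_eq B) hg hSU (ball_of μ B (hball N G μ hG)) b hb

theorem freeEnergy {d : ℕ} (hd : 3 ≤ d) : FreeEnergy d := by
  obtain ⟨A, C, hA, hC, hmain⟩ := free_bounds hd
  refine ⟨A, C, fun N hN G _ _ μ _ _ hG hSU l _ b hb => ?_⟩
  obtain ⟨h1, h2⟩ := hmain N hN G μ hG hSU b hb l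
  unfold cf at h1 h2
  constructor
  · linarith
  · linarith

/-- the deformation -/
def dfm (l : ℕ) (h : ℝ) (U : Link d l → G) : ℝ := h * (N : ℝ) ^ 2 * ∑ i : Fin d, order l (per U) i

/-- the real partition function -/
def zr (d l : ℕ) [NeZero l] (μ : Measure G) (h b : ℝ) : ℝ :=
  ∫ U : Link d l → G, Real.exp (-(N * b * action U + dfm l h U)) ∂(Measure.pi fun _ => μ)

/-- the free energy of the deformed theory -/
def fh (d l : ℕ) [NeZero l] (μ : Measure G) (h b : ℝ) : ℝ :=
  Real.log (zr d l μ h b) / ((N : ℝ) ^ 2 * (l : ℝ) ^ d)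

omit [MeasurableSpace G] [BorelSpace G] in
lemma dfm_zero (U : Link d l → G) : dfm l 0 U = 0 := by unfold dfm; ring

lemma fh_zero [NeZero l] (b : ℝ) : fh d l μ 0 b = free d l μ b := by
  unfold fh free zr
  simp only [dfm_zero, add_zero]

omit [MeasurableSpace G] [BorelSpace G] in
lemma order_nonneg (V : LinkZ d → G) (i : Fin d) : 0 ≤ order l V i := by
  unfold order; positivity

omit [MeasurableSpace G] [BorelSpace G] in
lemma dfm_nonneg {h : ℝ} (hh : 0 ≤ h) (U : Link d l → G) : 0 ≤ dfm l h U := by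
  unfold dfm
  have : 0 ≤ ∑ i : Fin d, order l (per U) i := Finset.sum_nonneg fun i _ => order_nonneg _ i
  positivity

lemma order_cont [NeZero l] [CompactSpace G] [SecondCountableTopology G] {n : ℕ} (B : YM.Frame G n) (i : Fin d) :
    Continuous fun U : Link d l → G => order l (per U) i := by
  have h1 : (fun U : Link d l → G => order l (per U) i) =
      fun U : YM.Ed d l → G => ‖trace (B.toLD.rho (EK.pol U i)) / N‖ ^ 2 :=
    funext fun U => order_eq B U i
  rw [h1]
  exact (((Continuous.matrix_trace (B.toLD.cont.comp (EK.pol_cont i))).div_const _).norm).pow 2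

lemma dfm_cont [NeZero l] [CompactSpace G] [SecondCountableTopology G] {n : ℕ} (B : YM.Frame G n) (h : ℝ) :
    Continuous (dfm l h : (Link d l → G) → ℝ) :=
  continuous_const.mul (continuous_finsetSum _ fun i _ => order_cont B i)

lemma zr_eq [NeZero l] [CompactSpace G] [SecondCountableTopology G] {n : ℕ} (B : YM.Frame G n) (h b : ℝ) :
    zr d l μ h b = YM.Zt μ B.toLD (N * b) (fun U : YM.Ed d l → G => Real.exp (-dfm l h U)) := by
  unfold zr YM.Zt
  refine integral_congr_ae (Eventually.of_forall fun U => ?_)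
  simp only
  rw [← Real.exp_add]
  congr 1
  have h2 : YM.act B.toLD U = action U := rfl
  rw [h2]
  ring

lemma part_eq [NeZero l] [CompactSpace G] [SecondCountableTopology G] {n : ℕ} (B : YM.Frame G n) (h : ℝ) (z : ℂ) :
    part d l μ h z = LN.Zc μ B.toLD (fun U : YM.Ed d l → G => Real.exp (-dfm l h U)) z := by
  unfold part LN.Zc
  refine integral_congr_ae (Eventually.of_forall fun U => ?_)
  simp only
  rw [Complex.ofReal_exp, ← Complex.exp_add]
  congr 1
  have h2 : YM.act B.toLD U = action U := rfl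
  rw [h2]
  unfold dfm
  push_cast
  ring

/-- the ratio of the partition functions is an expectation -/
lemma ratio [NeZero l] [CompactSpace G] [SecondCountableTopology G] {n : ℕ} (B : YM.Frame G n)
    (h b : ℝ) : zr d l μ h b =
      zr d l μ 0 b * ∫ U, Real.exp (-dfm l h U) ∂gibbs d l μ (N * b) := by
  have := right_inv μ
  have := inv_inv' μ
  rw [gibbs_int μ B, zr_eq μ B, zr_eq μ B]
  unfold YM.EX
  have h1 : (fun U : YM.Ed d l → G => Real.exp (-dfm l 0 U)) = fun _ => 1 := by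
    funext U
    rw [dfm_zero, neg_zero, Real.exp_zero]
  rw [h1]
  have h2 : 0 < YM.Zt μ B.toLD (N * b) (fun _ : YM.Ed d l → G => 1) := YM.Zt_pos μ _
  field_simp

lemma zr_zero_pos [NeZero l] (hG : IsClosed (G : Set (UU N))) (b : ℝ) : 0 < zr d l μ 0 b := by
  obtain ⟨h1, h2, n, ⟨B⟩⟩ := setup hG
  have := right_inv μ
  have := inv_inv' μ
  rw [zr_eq μ B]
  have h1 : (fun U : YM.Ed d l → G => Real.exp (-dfm l 0 U)) = fun _ => 1 := by
    funext U
    rw [dfm_zero, neg_zero, Real.exp_zero]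
  rw [h1]
  exact YM.Zt_pos μ _

/-- the expectation of the exponential of the deformation -/
lemma jensen [NeZero l] (hG : IsClosed (G : Set (UU N))) {h : ℝ} (hh : 0 ≤ h) (b : ℝ) :
    Real.exp (-(h * (N : ℝ) ^ 2 * ∑ i : Fin d, ∫ U, order l (per U) i ∂gibbs d l μ (N * b))) ≤
      ∫ U, Real.exp (-dfm l h U) ∂gibbs d l μ (N * b) ∧
    ∫ U, Real.exp (-dfm l h U) ∂gibbs d l μ (N * b) ≤ 1 := by
  obtain ⟨h1, h2, n, ⟨B⟩⟩ := setup hG
  have hpr := gibbs_prob (d := d) (l := l) μ B (N * b)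
  have hi : ∀ F : (Link d l → G) → ℝ, Continuous F → Integrable F (gibbs d l μ (N * b)) :=
    fun F hF => hF.integrable_of_hasCompactSupport (HasCompactSupport.of_compactSpace _)
  have hdc := dfm_cont (d := d) (l := l) B h
  have hec : Continuous fun U : Link d l → G => Real.exp (-dfm l h U) :=
    Real.continuous_exp.comp hdc.neg
  constructor
  · have e1 : -(h * (N : ℝ) ^ 2 * ∑ i : Fin d, ∫ U, order l (per U) i ∂gibbs d l μ (N * b)) =
        ∫ U, -dfm l h U ∂gibbs d l μ (N * b) := by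
      rw [integral_neg]
      congr 1
      unfold dfm
      rw [integral_const_mul, integral_finsetSum _ fun i _ => hi _ (order_cont B i)]
    rw [e1]
    exact convexOn_exp.map_integral_le Real.continuous_exp.continuousOn isClosed_univ
      (Eventually.of_forall fun _ => Set.mem_univ _) (hi _ hdc.neg) (hi _ hec)
  · have h3 : ∫ U, Real.exp (-dfm l h U) ∂gibbs d l μ (N * b) ≤
        ∫ U : Link d l → G, (1 : ℝ) ∂gibbs d l μ (N * b) :=
      integral_mono (hi _ hec) (hi _ continuous_const) fun U =>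
        Real.exp_le_one_iff.2 (by have := dfm_nonneg hh U; linarith)
    rwa [integral_const, probReal_univ, one_smul] at h3

lemma zr_pos [NeZero l] (hG : IsClosed (G : Set (UU N))) {h : ℝ} (hh : 0 ≤ h) (b : ℝ) :
    0 < zr d l μ h b := by
  obtain ⟨h1, h2, n, ⟨B⟩⟩ := setup hG
  rw [ratio μ B]
  exact mul_pos (zr_zero_pos μ hG b) (lt_of_lt_of_le (Real.exp_pos _) (jensen μ hG hh b).1)

/-- the facts about one partition function -/
lemma part_facts [NeZero l] (hN : 1 ≤ N) (hG : IsClosed (G : Set (UU N))) {h : ℝ} (hh : 0 ≤ h) :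
    0 < (N : ℝ) ^ 2 * (l : ℝ) ^ d ∧ Differentiable ℂ (part d l μ h) ∧
      (∀ b : ℝ, 0 < zr d l μ h b ∧ part d l μ h b = (zr d l μ h b : ℂ)) ∧
      (∀ z : ℂ, 0 < z.re → ‖part d l μ h z‖ ≤ 1) := by
  obtain ⟨h1, h2, n, ⟨B⟩⟩ := setup hG
  have := right_inv μ
  have := inv_inv' μ
  have hN' : (0 : ℝ) < N := by exact_mod_cast hN
  have hl' : (0 : ℝ) < l := by
    have := NeZero.pos l
    exact_mod_cast this
  have hec : Continuous fun U : Link d l → G => Real.exp (-dfm l h U) :=
    Real.continuous_exp.comp (dfm_cont B h).neg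
  refine ⟨by positivity, ?_, fun b => ?_, fun z hz => ?_⟩
  · have : part d l μ h = LN.Zc μ B.toLD (fun U : YM.Ed d l → G => Real.exp (-dfm l h U)) := by
      funext z; exact part_eq μ B h z
    rw [this]
    exact LN.Zc_diff μ hec
  · refine ⟨zr_pos μ hG hh b, ?_⟩
    rw [zr_eq μ B, part_eq μ B]
    exact LN.Zc_real μ _ b
  · unfold part
    have hnn : ∀ U : Link d l → G, 0 ≤ action U := by
      intro U
      unfold action
      refine Finset.sum_nonneg fun x _ => Finset.sum_nonneg fun i _ => Finset.sum_nonneg fun j _ => ?_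
      split_ifs
      · exact YM.we_nonneg (L := B.toLD) (plaq U x i j)
      · exact le_rfl
    calc _ ≤ 1 * (Measure.pi fun _ : Link d l => μ).real Set.univ := by
          refine norm_integral_le_of_norm_le_const (Eventually.of_forall fun U => ?_)
          rw [Complex.norm_exp]
          refine Real.exp_le_one_iff.2 ?_
          have e1 : (-(N * z * (action U : ℝ) + ((dfm l h U : ℝ) : ℂ))).re =
              -(N * z.re * action U + dfm l h U) := by
            rw [Complex.neg_re, Complex.add_re, Complex.ofReal_re]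
            have : (N : ℂ) * z * (action U : ℝ) = ((N * action U : ℝ) : ℂ) * z := by
              push_cast; ring
            rw [this, Complex.re_ofReal_mul]
            ring
          have e2 : (-(N * z * (action U : ℝ) + ((h * (N : ℝ) ^ 2 *
              ∑ i : Fin d, order l (per U) i : ℝ) : ℂ))).re = -(N * z.re * action U + dfm l h U) := e1
          rw [e2]
          have := hnn U
          have := dfm_nonneg hh U
          have : 0 ≤ (N : ℝ) * z.re * action U := by positivity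
          linarith
      _ = 1 := by rw [probReal_univ, one_mul]

lemma fh_diff [NeZero l] (hN : 1 ≤ N) (hG : IsClosed (G : Set (UU N))) {h e : ℝ} (hh : 0 ≤ h)
    {b : ℝ} (he : ∀ i : Fin d, ∫ U, order l (per U) i ∂gibbs d l μ (N * b) ≤ e) :
    |fh d l μ h b - free d l μ b| ≤ h * (d * e) := by
  obtain ⟨h1, h2, n, ⟨B⟩⟩ := setup hG
  obtain ⟨E, hE⟩ : ∃ E, E = ∫ U, Real.exp (-dfm l h U) ∂gibbs d l μ (N * b) := ⟨_, rfl⟩
  obtain ⟨j1, j2⟩ := jensen (d := d) (l := l) μ hG hh b
  rw [← hE] at j1 j2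
  have hE0 : 0 < E := lt_of_lt_of_le (Real.exp_pos _) j1
  have hN' : (0 : ℝ) < (N : ℝ) ^ 2 := by
    have : (0 : ℝ) < N := by exact_mod_cast hN
    positivity
  have hV : (1 : ℝ) ≤ (l : ℝ) ^ d := by
    have h3 : (1 : ℝ) ≤ l := by exact_mod_cast NeZero.pos l
    exact one_le_pow₀ h3
  have e1 : fh d l μ h b - free d l μ b = Real.log E / ((N : ℝ) ^ 2 * (l : ℝ) ^ d) := by
    rw [← fh_zero]
    unfold fh
    rw [ratio μ B h b, ← hE, Real.log_mul (zr_zero_pos μ hG b).ne' hE0.ne']
    ring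
  rw [e1, abs_div, abs_of_pos (show 0 < (N : ℝ) ^ 2 * (l : ℝ) ^ d by positivity),
    div_le_iff₀ (by positivity)]
  have j3 : Real.log E ≤ 0 := Real.log_nonpos hE0.le j2
  have j4 := (Real.le_log_iff_exp_le hE0).2 j1
  rw [abs_of_nonpos j3]
  have j5 : ∑ i : Fin d, ∫ U, order l (per U) i ∂gibbs d l μ (N * b) ≤ d * e := by
    refine (Finset.sum_le_sum fun i _ => he i).trans (le_of_eq ?_)
    rw [Finset.sum_const, Finset.card_univ, Fintype.card_fin, nsmul_eq_mul]
  have j0 : 0 ≤ ∑ i : Fin d, ∫ U, order l (per U) i ∂gibbs d l μ (N * b) :=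
    Finset.sum_nonneg fun i _ => integral_nonneg fun U => order_nonneg _ i
  have j6 : h * (N : ℝ) ^ 2 * ∑ i : Fin d, ∫ U, order l (per U) i ∂gibbs d l μ (N * b) ≤
      h * (N : ℝ) ^ 2 * (d * e) := mul_le_mul_of_nonneg_left j5 (by positivity)
  have j7 : 0 ≤ h * (N : ℝ) ^ 2 * (d * e) := le_trans (by positivity) j6
  calc -Real.log E ≤ h * (N : ℝ) ^ 2 * (d * e) := by linarith
    _ ≤ h * (N : ℝ) ^ 2 * (d * e) * (l : ℝ) ^ d := le_mul_of_one_le_right j7 hV
    _ = _ := by ring

lemma strong_diff {d : ℕ} (l l' : ℕ) [NeZero l] [NeZero l'] {h : ℝ} (hh : 0 ≤ h) : ∃ K : ℝ,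
    0 ≤ K ∧ FromN 1 fun N G _ μ => ∀ b : ℝ, 0 ≤ b → b ≤ 1 / (20000 * (d : ℝ)) →
      |fh d l' μ h b - free d l μ b| ≤ K / (N : ℝ) ^ 2 := by
  obtain ⟨w, F, hr⟩ := reduction d
  refine ⟨2 * (10 ^ 6 * (d : ℝ) ^ 2) + h * (d * (5000 * (((2 * l' : ℕ) + 1) * 8 ^ (2 * l')))),
    by positivity, fun N hN G _ _ μ _ _ hG hSU b hb0 hb1 => ?_⟩
  have hN' : (0 : ℝ) < N := by exact_mod_cast hN
  obtain ⟨-, -, -, -, r5, r6⟩ := hr N hN G μ hG hSU b hb0 hb1
  have h1 := fh_diff (d := d) (l := l') μ hN hG hh (b := b) (r5 l')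
  have h2 := r6 l
  have h3 := r6 l'
  have hb2 : b ≤ 1 := by
    refine hb1.trans ?_
    rcases Nat.eq_zero_or_pos d with h0 | h0
    · rw [h0]; simp
    · have : (1 : ℝ) ≤ d := by exact_mod_cast h0
      rw [div_le_one (by positivity)]
      linarith
  have h4 : 10 ^ 6 * (d : ℝ) ^ 2 * b / (N : ℝ) ^ 2 ≤ 10 ^ 6 * (d : ℝ) ^ 2 / (N : ℝ) ^ 2 := by
    refine div_le_div_of_nonneg_right ?_ (by positivity)
    exact mul_le_of_le_one_right (by positivity) hb2
  have e1 : fh d l' μ h b - free d l μ b = (fh d l' μ h b - free d l' μ b) +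
      ((free d l' μ b - F b) - (free d l μ b - F b)) := by ring
  rw [e1]
  refine (abs_add_le _ _).trans ?_
  have h5 := abs_sub (free d l' μ b - F b) (free d l μ b - F b)
  have e2 : (2 * (10 ^ 6 * (d : ℝ) ^ 2) + h * (d * (5000 * (((2 * l' : ℕ) + 1) *
      8 ^ (2 * l'))))) / (N : ℝ) ^ 2 = h * (d * err (2 * l') N) +
      (10 ^ 6 * (d : ℝ) ^ 2 / (N : ℝ) ^ 2 + 10 ^ 6 * (d : ℝ) ^ 2 / (N : ℝ) ^ 2) := by
    unfold err
    ring
  rw [e2]
  linarith

/-- zeros from a difference of the free energies at `b₁` -/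
lemma trans_aux {d : ℕ} (hd : 3 ≤ d) (l l' : ℕ) [NeZero l] [NeZero l'] {h b₁ c : ℝ} (hh : 0 ≤ h)
    (hb₁ : 1 ≤ b₁) (hc : 0 < c) {N₁ : ℕ}
    (hwk : FromN N₁ fun N G _ μ => c ≤ free d l μ b₁ - fh d l' μ h b₁) {r : ℝ} (hr : 0 < r) :
    ∃ N₀, FromN N₀ fun N G _ μ =>
      NearZero (1 / (20000 * (d : ℝ))) b₁ r (part d l μ 0) (part d l' μ h) := by
  obtain ⟨A, C, hA, hC, hfb⟩ := free_bounds hd
  obtain ⟨K, hK, hst⟩ := strong_diff (d := d) l l' hh
  have hd0 : (0 : ℝ) < d := by
    have : 0 < d := by omega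
    exact_mod_cast this
  obtain ⟨b₀, hb₀⟩ : ∃ b₀ : ℝ, b₀ = 1 / (20000 * (d : ℝ)) := ⟨_, rfl⟩
  rw [← hb₀] at hst ⊢
  have hb₀0 : 0 < b₀ := by rw [hb₀]; positivity
  have hb₀1 : b₀ ≤ 1 := by
    rw [hb₀, div_le_one (by positivity)]
    have : (3 : ℝ) ≤ d := by exact_mod_cast hd
    linarith
  by_contra hcon
  unfold FromN at hcon
  push Not at hcon
  obtain ⟨A', hA'⟩ : ∃ A' : ℝ, A' = cf d l * Real.log b₁ + C l := ⟨_, rfl⟩
  have hseq : ∀ k : ℕ, ∃ (Z Z' : ℂ → ℂ) (Y Y' : ℝ → ℝ) (m m' : ℝ), 0 < m ∧ 0 < m' ∧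
      Differentiable ℂ Z ∧ Differentiable ℂ Z' ∧ (∀ b, 0 < Y b ∧ Z b = Y b) ∧
      (∀ b, 0 < Y' b ∧ Z' b = Y' b) ∧ (∀ z : ℂ, 0 < z.re → ‖Z z‖ ≤ 1) ∧
      (∀ z : ℂ, 0 < z.re → ‖Z' z‖ ≤ 1) ∧
      (∀ b, 0 < b → b ≤ b₀ → |Real.log (Y b) / m - Real.log (Y' b) / m'| ≤ K / (k + 1)) ∧
      c ≤ Real.log (Y' b₁) / m' - Real.log (Y b₁) / m ∧ -A' ≤ Real.log (Y' b₁) / m' ∧
      (∀ z ∈ EK.reg b₀ b₁ (min r b₀), Z z ≠ 0) ∧ (∀ z ∈ EK.reg b₀ b₁ (min r b₀), Z' z ≠ 0) := by
    intro k
    obtain ⟨N, hN, G, _, _, μ, _, _, hG, hSU, hz⟩ := hcon (N₁ + k + 1)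
    have hN1 : 1 ≤ N := by omega
    have hN' : (0 : ℝ) < N := by exact_mod_cast hN1
    obtain ⟨f1, f2, f3, f4⟩ := part_facts (d := d) (l := l') μ hN1 hG hh
    obtain ⟨g1, g2, g3, g4⟩ := part_facts (d := d) (l := l) μ hN1 hG le_rfl
    have e4 : ∀ b, Real.log (zr d l μ 0 b) / ((N : ℝ) ^ 2 * (l : ℝ) ^ d) = free d l μ b :=
      fun b => fh_zero μ b
    refine ⟨part d l' μ h, part d l μ 0, zr d l' μ h, zr d l μ 0, _, _, f1, g1, f2, g2, f3, g3,
      f4, g4, fun b hb0 hb1 => ?_, ?_, ?_, fun z hzr => ?_, fun z hzr => ?_⟩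
    · rw [e4]
      have e5 := hst N hN1 G μ hG hSU b hb0.le hb1
      refine e5.trans ?_
      refine div_le_div_of_nonneg_left hK (by positivity) ?_
      have e8 : k + 1 ≤ N ^ 2 := by
        have : N ≤ N ^ 2 := Nat.le_self_pow (by norm_num) N
        omega
      exact_mod_cast e8
    · rw [e4]
      exact hwk N (by omega) G μ hG hSU
    · rw [e4, hA']
      have := (hfb N hN1 G μ hG hSU b₁ hb₁ l).2
      linarith
    · obtain ⟨b, hb, hzb⟩ := EK.reg_mem.1 hzr
      intro h0
      exact hz ⟨b, z, hb.1, hb.2, hzb.trans_le (min_le_left _ _), Or.inr h0⟩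
    · obtain ⟨b, hb, hzb⟩ := EK.reg_mem.1 hzr
      intro h0
      exact hz ⟨b, z, hb.1, hb.2, hzb.trans_le (min_le_left _ _), Or.inl h0⟩
  choose Z Z' Y Y' m m' q1 q2 q3 q4 q5 q6 q7 q8 q9 q10 q11 q12 q13 using hseq
  refine EK.fisher hb₀0 (hb₀1.trans hb₁) (lt_min hr hb₀0) (min_le_right _ _) hc q1 q2 q3 q4
    q5 q6 q7 q8 (fun b hb0 hb1 => ?_) q10 q11 q12 q13
  rw [tendsto_zero_iff_norm_tendsto_zero]
  refine squeeze_zero (fun k => norm_nonneg _) (fun k => q9 k b hb0 hb1) ?_
  have h3 : Tendsto (fun k : ℕ => (k : ℝ) + 1) atTop atTop :=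
    tendsto_atTop_add_const_right _ _ tendsto_natCast_atTop_atTop
  exact h3.const_div_atTop _

/-- the free energy of the deformed theory where the symmetry is broken -/
lemma broken_diff [NeZero l] (hN : 1 ≤ N) (hG : IsClosed (G : Set (UU N))) {h c : ℝ} (hh : 0 < h)
    (hc : c = min 1 (h / 2)) (hNc : 2 / c ≤ N) {b : ℝ} (i : Fin d)
    (he : gibbs d l μ (N * b) {U | order l (per U) i ≤ 1 / 2} ≤
      ENNReal.ofReal (Real.exp (-(N : ℝ) ^ 2))) :
    c / (2 * (l : ℝ) ^ d) ≤ free d l μ b - fh d l μ h b := by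
  obtain ⟨h1, h2, n, ⟨B⟩⟩ := setup hG
  have hpr := gibbs_prob (d := d) (l := l) μ B (N * b)
  obtain ⟨E, hE⟩ : ∃ E, E = ∫ U, Real.exp (-dfm l h U) ∂gibbs d l μ (N * b) := ⟨_, rfl⟩
  have hE0 : 0 < E := by
    rw [hE]; exact lt_of_lt_of_le (Real.exp_pos _) (jensen μ hG hh.le b).1
  have hc0 : 0 < c := by rw [hc]; exact lt_min one_pos (by positivity)
  have hN' : (1 : ℝ) ≤ N := by exact_mod_cast hN
  have hl0 : (0 : ℝ) < l := by exact_mod_cast NeZero.pos l
  have e1 : free d l μ b - fh d l μ h b = -Real.log E / ((N : ℝ) ^ 2 * (l : ℝ) ^ d) := by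
    rw [← fh_zero]
    unfold fh
    rw [ratio μ B h b, ← hE, Real.log_mul (zr_zero_pos μ hG b).ne' hE0.ne']
    ring
  have hi : ∀ F : (Link d l → G) → ℝ, Continuous F → Integrable F (gibbs d l μ (N * b)) :=
    fun F hF => hF.integrable_of_hasCompactSupport (HasCompactSupport.of_compactSpace _)
  obtain ⟨S, hS⟩ : ∃ S : Set (Link d l → G), S = {U | order l (per U) i ≤ 1 / 2} := ⟨_, rfl⟩
  rw [← hS] at he
  have hSm : MeasurableSet S := by
    rw [hS]; exact (isClosed_le (order_cont B i) continuous_const).measurableSet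
  have he2 : (gibbs d l μ (N * b)).real S ≤ Real.exp (-(N : ℝ) ^ 2) :=
    ENNReal.toReal_le_of_le_ofReal (Real.exp_pos _).le he
  have e2 : E ≤ Real.exp (-(N : ℝ) ^ 2) + Real.exp (-(h * (N : ℝ) ^ 2 / 2)) := by
    have e3 : E ≤ ∫ U, (S.indicator (fun _ => (1 : ℝ)) U + Real.exp (-(h * (N : ℝ) ^ 2 / 2)))
        ∂gibbs d l μ (N * b) := by
      rw [hE]
      refine integral_mono (hi _ (Real.continuous_exp.comp (dfm_cont B h).neg))
        (((integrable_const _).indicator hSm).add (integrable_const _)) fun U => ?_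
      by_cases hU : U ∈ S
      · simp only [Set.indicator_of_mem hU]
        have : Real.exp (-dfm l h U) ≤ 1 :=
          Real.exp_le_one_iff.2 (by have := dfm_nonneg hh.le U; linarith)
        have := Real.exp_pos (-(h * (N : ℝ) ^ 2 / 2))
        linarith
      · simp only [Set.indicator_of_notMem hU, zero_add]
        refine Real.exp_le_exp.2 (neg_le_neg ?_)
        rw [hS] at hU
        simp only [Set.mem_ofPred_eq, not_le] at hU
        have h5 : order l (per U) i ≤ ∑ j : Fin d, order l (per U) j :=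
          Finset.single_le_sum (f := fun j => order l (per U) j)
            (fun j _ => order_nonneg _ j) (Finset.mem_univ i)
        unfold dfm
        have h6 : h * (N : ℝ) ^ 2 * (1 / 2) ≤ h * (N : ℝ) ^ 2 * ∑ j : Fin d, order l (per U) j :=
          mul_le_mul_of_nonneg_left (hU.le.trans h5) (by positivity)
        linarith
    rw [integral_add ((integrable_const _).indicator hSm) (integrable_const _),
      integral_indicator_const _ hSm, integral_const, probReal_univ, one_smul, smul_eq_mul,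
      mul_one] at e3
    linarith
  have e3 : E ≤ 2 * Real.exp (-(c * (N : ℝ) ^ 2)) := by
    have c1 : c ≤ 1 := by rw [hc]; exact min_le_left _ _
    have c2 : c ≤ h / 2 := by rw [hc]; exact min_le_right _ _
    have hN2 : 0 ≤ (N : ℝ) ^ 2 := by positivity
    have e4 : Real.exp (-(N : ℝ) ^ 2) ≤ Real.exp (-(c * (N : ℝ) ^ 2)) :=
      Real.exp_le_exp.2 (by have := mul_le_mul_of_nonneg_right c1 hN2; linarith)
    have e5 : Real.exp (-(h * (N : ℝ) ^ 2 / 2)) ≤ Real.exp (-(c * (N : ℝ) ^ 2)) :=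
      Real.exp_le_exp.2 (by have := mul_le_mul_of_nonneg_right c2 hN2; linarith)
    linarith
  have e4 : Real.log E ≤ 1 - c * (N : ℝ) ^ 2 := by
    have e5 := Real.log_le_log hE0 e3
    rw [Real.log_mul (by norm_num) (Real.exp_pos _).ne', Real.log_exp] at e5
    have e6 : Real.log 2 ≤ 2 - 1 := Real.log_le_sub_one_of_pos (by norm_num)
    linarith
  rw [e1, le_div_iff₀ (by positivity)]
  have e5 : c / (2 * (l : ℝ) ^ d) * ((N : ℝ) ^ 2 * (l : ℝ) ^ d) = c * (N : ℝ) ^ 2 / 2 := by
    field_simp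
  rw [e5]
  rw [div_le_iff₀ hc0] at hNc
  have e6 : (N : ℝ) * c ≤ c * (N : ℝ) ^ 2 := by nlinarith
  linarith

theorem transitions {d : ℕ} (hd : 3 ≤ d) : Transitions d := by
  intro l _
  obtain ⟨A, C, hA, hC, hfb⟩ := free_bounds hd
  obtain ⟨b', N', hbr⟩ := broken hd l (1 / 2) (by norm_num)
  have hdr : (3 : ℝ) ≤ d := by exact_mod_cast hd
  have hl1 : (1 : ℝ) ≤ l := by exact_mod_cast NeZero.pos l
  obtain ⟨g, hg⟩ : ∃ g : ℝ, g = (d - 2) / (4 * (l : ℝ) ^ d) - (d - 2) / (4 * ((l : ℝ) + 1) ^ d) :=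
    ⟨_, rfl⟩
  have hg0 : 0 < g := by
    rw [hg, sub_pos]
    refine div_lt_div_of_pos_left (by linarith) (by positivity) ?_
    have : (l : ℝ) ^ d < ((l : ℝ) + 1) ^ d := pow_lt_pow_left₀ (by linarith) (by linarith) (by omega)
    linarith
  obtain ⟨x, hx⟩ : ∃ x : ℝ, x = (C l + A + 2) / g := ⟨_, rfl⟩
  have hCl := hC l
  have hx0 : 0 ≤ x := by rw [hx]; positivity
  obtain ⟨b₁, hb₁⟩ : ∃ b₁ : ℝ, b₁ = max b' (Real.exp x) := ⟨_, rfl⟩
  have hb₁1 : 1 ≤ b₁ := by
    rw [hb₁]; exact (Real.one_le_exp hx0).trans (le_max_right _ _)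
  have hb₁x : x ≤ Real.log b₁ := by
    rw [Real.le_log_iff_exp_le (by linarith), hb₁]; exact le_max_right _ _
  have hb₁b : b' ≤ b₁ := by rw [hb₁]; exact le_max_left _ _
  refine ⟨b₁, fun r hr => ⟨fun l' _ hll => ?_, fun h hh => ?_⟩⟩
  · refine trans_aux hd l l' le_rfl hb₁1 one_pos (N₁ := ⌈A * Real.log b₁⌉₊ + 1)
      (fun N hN G _ _ μ _ _ hG hSU => ?_) hr
    have hN1 : 1 ≤ N := by omega
    have hN' : (0 : ℝ) < N := by exact_mod_cast hN1
    show 1 ≤ free d l μ b₁ - fh d l' μ 0 b₁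
    rw [fh_zero]
    have h1 := (hfb N hN1 G μ hG hSU b₁ hb₁1 l).2
    have h2 := (hfb N hN1 G μ hG hSU b₁ hb₁1 l').1
    have hll' : (l : ℝ) + 1 ≤ l' := by exact_mod_cast hll
    have h3 : g ≤ cf d l' - cf d l := by
      rw [hg]
      unfold cf
      have h4 : (d - 2) / (4 * (l' : ℝ) ^ d) ≤ (d - 2) / (4 * ((l : ℝ) + 1) ^ d) := by
        refine div_le_div_of_nonneg_left (by linarith) (by positivity) ?_
        have : ((l : ℝ) + 1) ^ d ≤ (l' : ℝ) ^ d := pow_le_pow_left₀ (by linarith) hll' d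
        linarith
      linarith
    have h5 : A * (Real.log b₁ / N) ≤ 1 := by
      rw [← mul_div_assoc, div_le_one hN']
      refine (Nat.le_ceil _).trans ?_
      have : ⌈A * Real.log b₁⌉₊ ≤ N := by omega
      exact_mod_cast this
    have hlog0 : 0 ≤ Real.log b₁ := Real.log_nonneg hb₁1
    have h6 := mul_le_mul_of_nonneg_right h3 hlog0
    have h7 := mul_le_mul_of_nonneg_left hb₁x hg0.le
    have h8 : g * x = C l + A + 2 := by rw [hx]; field_simp
    rw [h8] at h7
    linarith
  · obtain ⟨c, hc⟩ : ∃ c : ℝ, c = min 1 (h / 2) := ⟨_, rfl⟩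
    have hc0 : 0 < c := by rw [hc]; exact lt_min one_pos (by positivity)
    refine trans_aux hd l l hh.le hb₁1 (c := c / (2 * (l : ℝ) ^ d)) (by positivity)
      (N₁ := N' + ⌈2 / c⌉₊ + 1) (fun N hN G _ _ μ _ _ hG hSU => ?_) hr
    refine broken_diff μ (by omega) hG hh hc ?_ ⟨0, by omega⟩
      (hbr N (by omega) G μ hG hSU b₁ hb₁b ⟨0, by omega⟩)
    refine (Nat.le_ceil _).trans ?_
    have : ⌈2 / c⌉₊ ≤ N := by omega
    exact_mod_cast this

theorem result (d : ℕ) : (∃ (w : ℝ → Path d → ℂ) (F : ℝ → ℝ), Reduction d w F) ∧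
    (3 ≤ d → Broken d ∧ FreeEnergy d ∧ Transitions d) :=
  ⟨reduction d, fun hd => ⟨broken hd, freeEnergy hd, transitions hd⟩⟩

end main

end

end Pool.Agent.Results.MP_7f377f_mp.EguchiKawai
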