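import Mathlib
import Pool.Agent.T2H04.YM.Proof

/-!
# Hierarchical Yang-Mills theory in four dimensions
-/

open MeasureTheory Matrix
open Pool.Agent.T2H03.HX (Bx)
open Pool.Agent.T2H04.HY (URep SG CA PolAct Quartic shift)
open Pool.Agent.T2H04.YM (coupling Theory Confining Limit)

namespace Pool.Agent.Results.MP_7f377f_mp.HierarchicalYangMills

/-- **Hierarchical Yang-Mills theory.** Let `G` be a compact connected Lie group with a simple Lie
algebra, with a faithful unitary representation `R` and an orthonormal basis `X` of the Lie algebra.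
There are continuum theories `f, S` with a mass gap and with the string tension `σ`, which are the
ultraviolet limit of the lattice gauge theories for all polynomial actions `V`. -/
theorem result {G : Type} [Group G] [TopologicalSpace G] [IsTopologicalGroup G] [CompactSpace G]
    [MeasurableSpace G] [BorelSpace G] (μ : Measure G) [μ.IsHaarMeasure] [IsProbabilityMeasure μ]
    {N n : ℕ} (R : URep G N) (X : Fin n → Matrix (Fin N) (Fin N) ℂ) (h : SG R n X) :
    ∃ (f : ℝ → G → ℝ) (S : ℝ → (n : ℕ) → (((Bx n).E → G) → ℝ) → ℝ) (σ : ℝ → ℝ) (κ₁ : ℝ),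
      0 < κ₁ ∧ κ₁ < coupling μ R n (fun _ => 1) 0 ∧
      Theory μ R n (CA X) f S ∧ Confining μ R f S σ ∧
      ∀ V : G → ℝ, PolAct R V → ∃ (V4 : Matrix (Fin N) (Fin N) ℂ → ℝ) (σV : ℝ → ℝ),
        Quartic R V V4 ∧ Limit μ R n (CA X) κ₁ f S σ V (shift X V4) σV :=
  Pool.Agent.T2H04.YM.main μ R X h

end Pool.Agent.Results.MP_7f377f_mp.HierarchicalYangMills
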