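import Pool.Agent.T2H01.SE.All3
import Pool.Agent.T2H01.SE.Inv

/-!
# MP_7f377f_mp: confinement by a dilute gas of fractional instantons on a twisted tube

Four-dimensional `SU(N)` lattice Yang-Mills theory with the Wilson action on `ℤ² × (ℤ/L)²`, with an
't Hooft twist `exp (2 π i k / N)`, `k` coprime to `N`, through the torus `(ℤ/L)²`. `S L` is the action of
the vortex (fractional instanton): the infimum of the actions of the configurations which agree with
the vacuum outside a finite set, in the presence of a nontrivial central flux through one cell of the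
plane. It converges to a positive constant `Sc ≥ S L` as the lattice spacing `1 / L` goes to `0`. For weak
coupling `β ≥ C L ^ K`, uniformly in `L`, Wilson loops in the plane obey an area law with a string tension
at least `exp (-β (S L + ε))`, and the partition functions `TZ n A B` of the torus
`(ℤ/A) × (ℤ/B) × (ℤ/L)²` with the magnetic flux `n` through the large two-torus are those of a
dilute gas of independent vortices with the densities `ζ n`, `exp (-β (S L ± ε))`: the free energy of `c`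
units of electric flux is `A B ∑ ζ n (1 - cos (2 π c n / N)) (1 + O(η))`.
-/

set_option autoImplicit false

noncomputable section

open MeasureTheory Matrix T2H02.TT T2H01.SE

namespace Pool.Agent.Results.MP_7f377f_mp.TwistedTubeInstantonGas

/-- Confinement with the exact semiclassical exponent, and the dilute gas of fractional instantons,
uniformly in the lattice spacing. -/
theorem result (N k : ℕ) (hN : 2 ≤ N) (hk : Nat.Coprime k N) :
    (∃ P Q : SU N, PQ k P Q) ∧ ∃ (S : ℕ → ℝ) (S₀ Sc : ℝ),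
      0 < S₀ ∧ Filter.Tendsto S Filter.atTop (nhds Sc) ∧
      (∀ (L : ℕ) [NeZero L],
        (∀ β : ℝ, 0 ≤ β → ∀ (R : Finset Pl) (x : Pl) (y : Tor L) (a b : ℕ),
          (∀ i j : ℕ, i ≤ a → j ≤ b → x + ((i : ℤ), (j : ℤ)) ∈ R) →
            ‖wexC N L k β R (fun X => wlp X x y a b)‖ ≤
              (1 - Real.exp (-2 * N * L ^ 2 * β)) ^ (a * b)) ∧
        S₀ ≤ S L ∧ S L ≤ Sc ∧ ∀ P Q : SU N, PQ k P Q → SS L k P Q = S L) ∧
      ∀ ε η : ℝ, 0 < ε → 0 < η → ∃ (C : ℝ) (K : ℕ), ∀ (L : ℕ) [NeZero L] (β : ℝ),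
        C * (L : ℝ) ^ K ≤ β →
          (∀ (R : Finset Pl) (x : Pl) (y : Tor L) (a b : ℕ), C * (L : ℝ) ^ K ≤ a →
            C * (L : ℝ) ^ K ≤ b → (∀ i j : ℕ, i ≤ a → j ≤ b → x + ((i : ℤ), (j : ℤ)) ∈ R) →
              ‖wexC N L k β R (fun X => wlp X x y a b)‖ ≤
                Real.exp (-(Real.exp (-β * (S L + ε)) * (a * b)))) ∧
          ∃ ζ : ℕ → ℝ, (∀ n, 0 < ζ n) ∧
            Real.exp (-β * (S L + ε)) ≤ ∑ n ∈ Finset.Ico 1 N, ζ n ∧
            ∑ n ∈ Finset.Ico 1 N, ζ n ≤ Real.exp (-β * (S L - ε)) ∧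
            ∀ (c A B : ℕ) [NeZero A] [NeZero B], Even A → Even B → Real.exp (ε * β) ≤ A →
              Real.exp (ε * β) ≤ B →
              |Real.log (‖∑ n ∈ Finset.range N, om N (c * n) * (TZ N L k β n A B : ℂ)‖ /
                  ∑ n ∈ Finset.range N, TZ N L k β n A B) +
                A * B * ∑ n ∈ Finset.Ico 1 N, ζ n * (1 - Real.cos (2 * Real.pi * (c * n) / N))| ≤
              η * (A * B * ∑ n ∈ Finset.Ico 1 N, ζ n) := by
  obtain ⟨P, Q, h⟩ := pA1 N k hN hk
  obtain ⟨S₀, hS₀, h0⟩ := aXD N k hN hk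
  obtain ⟨s, hs1, hs2⟩ := aBL N k hN hk P Q h
  refine ⟨⟨P, Q, h⟩, SSq k P Q s, S₀, s, hS₀, SSq_tendsto k P Q s hs1 hs2, ?_, ?_⟩
  · intro L _
    rw [SSq_eq]
    exact ⟨fun β hβ R x y a b hR => aAR N k L hN β hβ R x y a b hR, h0 L P Q h, hs1 L,
      fun P' Q' h' => SS_inv pA2 aVA N k L hN hk P' Q' P Q h' h⟩
  · intro ε η hε hη
    obtain ⟨C₁, K₁, hC₁, h1⟩ := aWFu N k hN hk P Q h ε hε
    obtain ⟨C₂, K₂, hC₂, h2⟩ := aDGu N k hN hk P Q h ε η hε hη
    refine ⟨max C₁ C₂, max K₁ K₂, ?_⟩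
    intro L _ β hβ
    have hL : (1 : ℝ) ≤ (L : ℝ) := by
      exact_mod_cast Nat.one_le_iff_ne_zero.2 (NeZero.ne L)
    have hmax : 0 ≤ max C₁ C₂ := le_trans (by linarith) (le_max_left _ _)
    have e1 : C₁ * (L : ℝ) ^ K₁ ≤ max C₁ C₂ * (L : ℝ) ^ (max K₁ K₂) :=
      mul_le_mul (le_max_left _ _) (pow_le_pow_right₀ hL (le_max_left _ _)) (by positivity) hmax
    have e2 : C₂ * (L : ℝ) ^ K₂ ≤ max C₁ C₂ * (L : ℝ) ^ (max K₁ K₂) :=
      mul_le_mul (le_max_right _ _) (pow_le_pow_right₀ hL (le_max_right _ _)) (by positivity) hmax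
    rw [SSq_eq]
    refine ⟨fun R x y a b ha hb hR => ?_, ?_⟩
    · exact h1 L β (e1.trans hβ) R x y a b (e1.trans ha) (e1.trans hb) hR
    · exact h2 L β (e2.trans hβ)

end Pool.Agent.Results.MP_7f377f_mp.TwistedTubeInstantonGas
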