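import Pool.Agent.T2H02.TT.All7

/-!
# MP_7f377f_mp: the mass gap of four-dimensional `SU(N)` lattice Yang-Mills theory on a twisted tube

The lattice is `ℤ² × (ℤ/L)²` (points `Pt L`), with an 't Hooft twist `exp (2 π i k / N)`, `k` coprime
to `N`, through the torus `(ℤ/L)²`. The Wilson action `wact` is the sum of
`Re tr (1 - conj (twist) U_p)`. `mgp N L = 2 arsinh (sin (π / (N L)))` is the mass of the lightest
gluon in perturbation theory. For every `ε > 0`, all `L` and all `β ≥ C₀ L ^ K₀` (`C₀`, `K₀` depend on
`N`, `k`, `ε` only) the infinite volume limit exists, its correlations decay exponentially in the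
directions of the plane with the rate `(1 - ε) mgp N L`, the transfer matrix has a spectral gap at
least `(1 - ε) mgp N L`, and neither the rate of decay nor the spectral gap is larger than
`(1 + ε) mgp N L`. For a torus of side one the lattice spacing is `1 / L`, so that the mass gap in
physical units is `L` times the mass gap of the lattice theory; it tends to `2 π / N` as `L → ∞` if
`β` grows faster than all powers of `L`. In the same limit the Polyakov loops around the torus
(`Zpol`, their lowest Fourier mode, normalised), as a complex random distribution on the plane,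
converge in law to the complex Gaussian free field of mass `2 π / N`: the smeared fields (`sfl`,
lattice spacing `1 / L`) of the real part with the test function `F` and of the imaginary part with
the test function `F'` become independent Gaussian variables of variances `cov (2 π / N) F` and
`cov (2 π / N) F'`, the covariance of the free field (`GK` is the Green function of `m² - Δ`).
-/

set_option autoImplicit false

noncomputable section

open MeasureTheory Matrix Filter Topology T2H02.TT

namespace Pool.Agent.Results.MP_7f377f_mp.TwistedTubeMassGap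

/-- Mass gap at weak coupling on a twisted tube: asymptotic value, uniformly in the lattice spacing,
its limit in physical units, and the scaling limit of the Polyakov loops. -/
theorem result (N k : ℕ) (hN : 2 ≤ N) (hk : Nat.Coprime k N) :
    (∀ ε : ℝ, 0 < ε → ε < 1 → ∃ (C₀ : ℝ) (K₀ : ℕ), 0 < C₀ ∧
      ∀ (L : ℕ) [NeZero L] (β : ℝ), C₀ * (L : ℝ) ^ K₀ ≤ β →
        (∀ r : ℕ, ∃ C : ℝ, ∀ (a : Pl) (f : Cf N L → ℝ), Loc (Nb r a) f →
          (∀ (n : ℕ) (R : Finset Pl), Nb n a ⊆ R →
            |wex N L k β R f - Phi N L k β f| ≤ C * Real.exp (-((1 - ε) * mgp N L) * n)) ∧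
          ∀ v : Pl, Phi N L k β (fun X => f (shf v X)) = Phi N L k β f) ∧
        ClI N L k β ((1 - ε) * mgp N L) ∧ GapI N L k β ((1 - ε) * mgp N L) ∧
        ∀ m : ℝ, ClI N L k β m ∨ GapI N L k β m → m ≤ (1 + ε) * mgp N L) ∧
    (∀ β : ℕ → ℝ, (∀ K : ℕ, ∀ᶠ L : ℕ in atTop, (L : ℝ) ^ K ≤ β L) →
      Tendsto (fun L : ℕ => ((L + 1 : ℕ) : ℝ) * gapv N (L + 1) k (β (L + 1))) atTop
        (𝓝 (2 * Real.pi / N))) ∧
    ∀ a : ℕ, a < N → (k * a) % N = 1 →
      ∃ K₀ : ℕ, ∀ F F' : ℝ × ℝ → ℝ, ContDiff ℝ 4 F → ContDiff ℝ 4 F' → HasCompactSupport F →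
        HasCompactSupport F' → ∀ ε : ℝ, 0 < ε →
        ∃ C₀ : ℝ, 0 < C₀ ∧ ∀ (L : ℕ) [NeZero L] (β : ℝ), C₀ ≤ L → C₀ * (L : ℝ) ^ K₀ ≤ β →
          |Phi N L k β (fun X => Real.cos (sfl β (fun φ => (Zpol N L a φ).re) F X +
              sfl β (fun φ => (Zpol N L a φ).im) F' X)) -
            Real.exp (-((cov (2 * Real.pi / N) F + cov (2 * Real.pi / N) F') / 2))| ≤ ε ∧
          |Phi N L k β (fun X => Real.sin (sfl β (fun φ => (Zpol N L a φ).re) F X +
              sfl β (fun φ => (Zpol N L a φ).im) F' X))| ≤ ε :=
  ⟨fun ε hε hε1 => aexact1 N k hN hk ε hε hε1, fun β hβ => acont N k hN hk β hβ,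
    fun a ha hka => ascal3 N k a hN hk ha hka⟩

end Pool.Agent.Results.MP_7f377f_mp.TwistedTubeMassGap
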